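import Pool.Agent.Helper8.CI.FanZ
import Pool.Agent.Helper20.Mono.Crd
import Pool.Agent.Helper4.CI.Goals

/-! # Packet R1: existence of the fans -/

set_option autoImplicit false

namespace Mono.CI.R1

open Finset Mono

theorem exists_outside {n : ℕ} (b : Fin n → ℝ) :
    ∃ y : ℝ, 0 < y ∧ y ∉ Submodule.span ℚ (Set.range b) := by
  have hc : (Submodule.span ℚ (Set.range b) : Set ℝ).Countable := by
    have : (Submodule.span ℚ (Set.range b) : Set ℝ) =
        Set.range (fun c : Fin n → ℚ => ∑ i, c i • b i) := by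
      ext x
      rw [SetLike.mem_coe, Submodule.mem_span_range_iff_exists_fun]
      rfl
    rw [this]
    exact Set.countable_range _
  obtain ⟨y, hy, hy'⟩ := (hc.dense_compl ℝ).exists_mem_open isOpen_Ioi
    (Set.nonempty_Ioi (a := (0 : ℝ)))
  exact ⟨y, hy', hy⟩

theorem exists_ext (N k : ℕ) (b : Fin N → ℝ) (hb : ∀ i, 0 < b i) (hbi : LinearIndependent ℚ b) :
    ∃ b' : Fin (N + k) → ℝ, (∀ i, 0 < b' i) ∧ LinearIndependent ℚ b' ∧
      ∀ i, b' (Fin.castAdd k i) = b i := by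
  induction k with
  | zero => exact ⟨b, hb, hbi, fun i => rfl⟩
  | succ k ih =>
    obtain ⟨b', h1, h2, h3⟩ := ih
    obtain ⟨y, hy, hy'⟩ := exists_outside b'
    refine ⟨Fin.snoc (α := fun _ => ℝ) b' y, ?_, ?_, ?_⟩
    · intro i
      refine Fin.lastCases ?_ (fun i => ?_) i
      · simpa using hy
      · simpa using h1 i
    · exact linearIndependent_finSnoc.2 ⟨h2, hy'⟩
    · intro i
      have : Fin.castAdd (k + 1) i = (Fin.castAdd k i).castSucc := rfl
      rw [this]
      exact (Fin.snoc_castSucc (α := fun _ => ℝ) (x := y) (p := b') (Fin.castAdd k i)).trans (h3 i)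

/-! ### rescaling the generators of a fan -/

section scale

variable {n : ℕ} {Φ' : Fan n} {V : Finset (Fin n → ℤ)} {f : (Fin n → ℤ) → (Fin n → ℤ)}
  {l : (Fin n → ℤ) → ℝ}

theorem indep_scale (hl : ∀ u, 0 < l u) (hf : ∀ u, toR (f u) = l u • toR u)
    (hinj : ∀ u ∈ V, ∀ v ∈ V, f u = f v → u = v) {F : Finset (Fin n → ℤ)} (hFV : F ⊆ V)
    (hF : Indep (F.image f)) : Indep F := by
  unfold Indep
  rw [Fintype.linearIndependent_iff]
  intro g hg
  have h1 : LinearIndependent ℝ (fun u : F => toR (f u)) := by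
    have := hF.comp (fun u : F => (⟨f u, mem_image_of_mem f u.2⟩ : (F.image f : Finset _))) (by
      intro a b hab
      exact Subtype.ext (hinj _ (hFV a.2) _ (hFV b.2) (congrArg Subtype.val hab)))
    exact this
  rw [Fintype.linearIndependent_iff] at h1
  intro i
  have h2 := h1 (fun u => g u / l u) (by
    rw [← hg]
    refine sum_congr rfl fun u _ => ?_
    rw [hf, smul_smul, div_mul_cancel₀ _ (hl u).ne']) i
  have h3 := div_mul_cancel₀ (g i) (hl (i : Fin n → ℤ)).ne'
  rw [← h3]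
  simp only [h2, zero_mul]

theorem crd_scale (hl : ∀ u, 0 < l u) (hf : ∀ u, toR (f u) = l u • toR u)
    (hinj : ∀ u ∈ V, ∀ v ∈ V, f u = f v → u = v) {F : Finset (Fin n → ℤ)} (hFV : F ⊆ V)
    (hF : F.image f ∈ Φ'.mx) (x : Fin n → ℝ) {u : Fin n → ℤ} (hu : u ∈ F) :
    crd F x u = l u * crd (F.image f) x (f u) := by
  refine crd_eq (indep_scale hl hf hinj hFV (Φ'.mx_indep _ hF))
    (c := fun u => l u * crd (F.image f) x (f u)) ?_ hu
  have h1 := sum_crd (Φ'.mx_indep _ hF) (Φ'.mx_card _ hF) x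
  rw [sum_image fun a ha b hb h => hinj a (hFV ha) b (hFV hb) h] at h1
  rw [← h1]
  refine sum_congr rfl fun v _ => ?_
  rw [h1, hf, smul_smul, mul_comm]

open Classical in
/-- the rescaled fan -/
noncomputable def scaleFan (Φ' : Fan n) (V : Finset (Fin n → ℤ))
    (f : (Fin n → ℤ) → (Fin n → ℤ)) (l : (Fin n → ℤ) → ℝ)
    (hV : ∀ u ∈ V, ∀ i, 0 ≤ u i)
    (hl : ∀ u, 0 < l u) (hf : ∀ u, toR (f u) = l u • toR u)
    (hinj : ∀ u ∈ V, ∀ v ∈ V, f u = f v → u = v)
    (hsurj : ∀ u' ∈ Φ'.vert, ∃ u ∈ V, f u = u') : Fan n where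
  vert := V
  mx := V.powerset.filter (fun F => F.image f ∈ Φ'.mx)
  vert_nonneg := hV
  mx_sub := fun F hF => mem_powerset.1 (mem_filter.1 hF).1
  mx_card := by
    intro F hF
    obtain ⟨h1, h2⟩ := mem_filter.1 hF
    have h3 := Φ'.mx_card _ h2
    rwa [card_image_of_injOn] at h3
    intro a ha b hb h
    exact hinj a (mem_powerset.1 h1 ha) b (mem_powerset.1 h1 hb) h
  mx_indep := by
    intro F hF
    obtain ⟨h1, h2⟩ := mem_filter.1 hF
    exact indep_scale hl hf hinj (mem_powerset.1 h1) (Φ'.mx_indep _ h2)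
  cover := by
    intro x hx
    obtain ⟨F', hF', hc⟩ := Φ'.cover x hx
    have himg : (V.filter (fun u => f u ∈ F')).image f = F' := by
      ext u'
      simp only [mem_image, mem_filter]
      constructor
      · rintro ⟨u, ⟨_, h⟩, rfl⟩
        exact h
      · intro hu'
        obtain ⟨u, hu, rfl⟩ := hsurj u' (Φ'.mx_sub F' hF' hu')
        exact ⟨u, ⟨hu, hu'⟩, rfl⟩
    refine ⟨V.filter (fun u => f u ∈ F'), mem_filter.2 ⟨mem_powerset.2 (filter_subset _ _), ?_⟩, ?_⟩
    · convert hF'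
    · intro u
      by_cases hu : u ∈ V.filter (fun u => f u ∈ F')
      · rw [crd_scale (Φ' := Φ') hl hf hinj (filter_subset _ _) (by rw [himg]; exact hF') x hu, himg]
        exact mul_nonneg (hl u).le (hc _)
      · rw [crd_of_notMem _ _ hu]
  inter := by
    intro F hF G hG x hxF hxG u hu
    obtain ⟨hF1, hF2⟩ := mem_filter.1 hF
    obtain ⟨hG1, hG2⟩ := mem_filter.1 hG
    by_cases huF : u ∈ F
    · rw [crd_scale (Φ' := Φ') hl hf hinj (mem_powerset.1 hF1) hF2 x huF]
      have key : ∀ E : Finset (Fin n → ℤ), E ⊆ V → E.image f ∈ Φ'.mx → (∀ u, 0 ≤ crd E x u) →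
          ∀ u', 0 ≤ crd (E.image f) x u' := by
        intro E hE1 hE2 hE3 u'
        by_cases hu' : u' ∈ E.image f
        · obtain ⟨v, hv, rfl⟩ := mem_image.1 hu'
          have h1 := hE3 v
          rw [crd_scale (Φ' := Φ') hl hf hinj hE1 hE2 x hv] at h1
          exact nonneg_of_mul_nonneg_right h1 (hl v)
        · rw [crd_of_notMem _ _ hu']
      rw [Φ'.inter _ hF2 _ hG2 x (key F (mem_powerset.1 hF1) hF2 hxF)
        (key G (mem_powerset.1 hG1) hG2 hxG) (f u) ?_, mul_zero]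
      intro h
      obtain ⟨v, hv, hfv⟩ := mem_image.1 h
      have := hinj v (mem_powerset.1 hG1 hv) u (mem_powerset.1 hF1 huF) hfv
      exact hu (this ▸ hv)
    · exact crd_of_notMem _ _ huF

theorem scaleFan_coherent (Φ' : Fan n) (V : Finset (Fin n → ℤ))
    (f : (Fin n → ℤ) → (Fin n → ℤ)) (l : (Fin n → ℤ) → ℝ)
    (hV : ∀ u ∈ V, ∀ i, 0 ≤ u i)
    (hl : ∀ u, 0 < l u) (hf : ∀ u, toR (f u) = l u • toR u)
    (hinj : ∀ u ∈ V, ∀ v ∈ V, f u = f v → u = v)
    (hsurj : ∀ u' ∈ Φ'.vert, ∃ u ∈ V, f u = u') (hmem : ∀ u ∈ V, f u ∈ Φ'.vert)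
    (hco : Φ'.Coherent) : (scaleFan Φ' V f l hV hl hf hinj hsurj).Coherent := by
  obtain ⟨h, hh⟩ := hco
  refine ⟨fun u => h (f u) / l u, fun F hF => ?_⟩
  obtain ⟨hF1, hF2⟩ := mem_filter.1 hF
  obtain ⟨κ, hk1, hk2⟩ := hh _ hF2
  have e : ∀ u, κ ⬝ᵥ toR u = (κ ⬝ᵥ toR (f u)) / l u := by
    intro u
    rw [hf, dotProduct_smul, smul_eq_mul, mul_div_cancel_left₀ _ (hl u).ne']
  refine ⟨κ, fun u hu => ?_, fun u hu huF => ?_⟩
  · rw [e, hk1 _ (mem_image_of_mem f hu)]
  · rw [e]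
    apply div_lt_div_of_pos_right _ (hl u)
    apply hk2 _ (hmem u hu)
    intro h'
    obtain ⟨v, hv, hfv⟩ := mem_image.1 h'
    exact huF (hinj v (mem_powerset.1 hF1 hv) u hu hfv ▸ hv)

end scale

/-! ### the configuration -/

section conf

variable {N k : ℕ}

theorem lift_left (c : Option (Fin k)) (u : Fin N → ℤ) (i : Fin N) :
    lift c u (Fin.castAdd k i) = u i := by
  simp [lift]

theorem lift_right (c : Option (Fin k)) (u : Fin N → ℤ) (j : Fin k) :
    lift c u (Fin.natAdd N j) = ind c j := by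
  simp [lift]

theorem lift_none_smul (L : ℤ) (u : Fin N → ℤ) :
    lift (none : Option (Fin k)) (L • u) = L • lift none u := by
  funext i
  refine Fin.addCases (fun i => ?_) (fun j => ?_) i
  · rw [Pi.smul_apply, lift_left, lift_left, Pi.smul_apply]
  · rw [Pi.smul_apply, lift_right, lift_right]
    simp [ind]

theorem lift_inj {c : Option (Fin k)} {u v : Fin N → ℤ} (h : lift c u = lift c v) : u = v := by
  funext i
  have := congrFun h (Fin.castAdd k i)
  rwa [lift_left, lift_left] at this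

theorem lift_some_ne_none (j : Fin k) (u v : Fin N → ℤ) :
    lift (some j) u ≠ lift none v := by
  intro h
  have := congrFun h (Fin.natAdd N j)
  rw [lift_right, lift_right] at this
  simp [ind] at this

theorem lift_nonneg {c : Option (Fin k)} {u : Fin N → ℤ} (hu : ∀ i, 0 ≤ u i) (i : Fin (N + k)) :
    0 ≤ lift c u i := by
  refine Fin.addCases (fun i => ?_) (fun j => ?_) i
  · rw [lift_left]; exact hu i
  · rw [lift_right]
    unfold ind
    split_ifs <;> norm_num

variable {A : Option (Fin k) → Finset (Fin N → ℤ)} {L : ℕ} {Z : Finset (Fin (N + k) → ℤ)}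
  {Φ' : Fan (N + k)}

theorem mem_scay {u : Fin (N + k) → ℤ} : u ∈ scay A L ↔
    (∃ t ∈ A none, (L : ℤ) • lift none t = u) ∨ ∃ j, ∃ v ∈ A (some j), lift (some j) v = u := by
  unfold scay
  simp only [mem_union, mem_image, mem_biUnion, mem_univ, true_and, lift_none_smul]

theorem mem_cay {u : Fin (N + k) → ℤ} : u ∈ cay A univ ↔
    (∃ t ∈ A none, lift none t = u) ∨ ∃ j, ∃ v ∈ A (some j), lift (some j) v = u := by
  unfold cay
  simp only [mem_image, mem_biUnion, mem_univ, true_and]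
  constructor
  · rintro ⟨c, t, ht, rfl⟩
    cases c with
    | none => exact Or.inl ⟨t, ht, rfl⟩
    | some j => exact Or.inr ⟨j, t, ht, rfl⟩
  · rintro (⟨t, ht, rfl⟩ | ⟨j, t, ht, rfl⟩)
    · exact ⟨none, t, ht, rfl⟩
    · exact ⟨some j, t, ht, rfl⟩

theorem mem_H {u : Fin (N + k) → ℤ} : u ∈ Hset A Z ↔
    u ∈ Z ∨ ∃ j, ∃ v ∈ A (some j), lift (some j) v = u := by
  unfold Hset
  simp only [mem_union, mem_image, mem_biUnion, mem_univ, true_and]

theorem smul_lift_ne (hg : Good A) (hL : L ≠ 0) (t : Fin N → ℤ) (ht : t ∈ A none) :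
    (L : ℤ) • lift (k := k) none t ≠ 0 := by
  intro h
  apply hg.zero none
  have : t = 0 := by
    funext i
    have h1 := congrFun h (Fin.castAdd k i)
    rw [Pi.smul_apply, lift_left] at h1
    simp only [smul_eq_mul, Pi.zero_apply, mul_eq_zero, Nat.cast_eq_zero] at h1
    exact h1.resolve_left hL
  rw [← this]
  exact ht

theorem existsTriC : ExistsTriC := by
  classical
  intro N k A b hg hb hbi
  obtain ⟨b', hb', hbi', hext⟩ := exists_ext N k b hb hbi
  set L : ℕ := 2 + ∑ j, ∑ v ∈ A (some j), ∑ i, (v i).toNat with hLd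
  have hL2 : 2 ≤ L := by omega
  have hL0 : L ≠ 0 := by omega
  have hlt : ∀ j, ∀ v ∈ A (some j), ∀ i, v i < L := by
    intro j v hv i
    have h1 : (v i).toNat ≤ ∑ i, (v i).toNat :=
      single_le_sum (f := fun i => (v i).toNat) (fun _ _ => Nat.zero_le _) (mem_univ i)
    have h2 : ∑ i, (v i).toNat ≤ ∑ v ∈ A (some j), ∑ i, (v i).toNat :=
      single_le_sum (f := fun v : Fin N → ℤ => ∑ i, (v i).toNat) (fun _ _ => Nat.zero_le _) hv
    have h3 : ∑ v ∈ A (some j), ∑ i, (v i).toNat ≤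
        ∑ j, ∑ v ∈ A (some j), ∑ i, (v i).toNat :=
      single_le_sum (f := fun j : Fin k => ∑ v ∈ A (some j), ∑ i, (v i).toNat)
        (fun _ _ => Nat.zero_le _) (mem_univ j)
    have h4 := Int.self_le_toNat (v i)
    have h5 : ((v i).toNat : ℤ) < L := by
      have : (v i).toNat < L := by omega
      exact_mod_cast this
    linarith
  have hne : (scay A L).Nonempty := by
    obtain ⟨t, ht⟩ := hg.ne none
    exact ⟨_, mem_scay.2 (Or.inl ⟨t, ht, rfl⟩)⟩
  have hnn : ∀ v ∈ scay A L, ∀ i, 0 ≤ v i := by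
    intro v hv i
    rcases mem_scay.1 hv with ⟨t, ht, rfl⟩ | ⟨j, t, ht, rfl⟩
    · rw [Pi.smul_apply, smul_eq_mul]
      exact mul_nonneg (by positivity) (lift_nonneg (hg.nonneg none t ht) i)
    · exact lift_nonneg (hg.nonneg _ t ht) i
  have hz : (0 : Fin (N + k) → ℤ) ∉ scay A L := by
    intro h
    rcases mem_scay.1 h with ⟨t, ht, h'⟩ | ⟨j, t, ht, h'⟩
    · exact smul_lift_ne hg hL0 t ht h'
    · have := congrFun h' (Fin.natAdd N j)
      rw [lift_right] at this
      simp [ind] at this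
  obtain ⟨Φ', Z, hT, hco, hBF, hsing⟩ := mainZ (scay A L) b' hne hnn hz hb' hbi'
  have hdis : Disjoint (scay A L) Z := hT.2.2.2.1
  have hvert : Φ'.vert = scay A L ∪ Z := hT.2.2.2.2.1
  have hZs : ∀ z ∈ Z, ∃ i, z = Pi.single i 1 := hT.2.2.2.2.2.1.2.1
  have hnotZ : ∀ t ∈ A none, lift none t ∉ Z := by
    intro t ht hZt
    obtain ⟨i, hi⟩ := hZs _ hZt
    rw [hi] at hZt
    apply hsing i hZt (L : ℤ) (by positivity)
    rw [mem_scay]
    left
    refine ⟨t, ht, ?_⟩
    rw [hi]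
    funext i'
    rw [Pi.smul_apply, smul_eq_mul]
    by_cases h : i' = i
    · subst h; simp
    · rw [Pi.single_eq_of_ne h, Pi.single_eq_of_ne h, mul_zero]
  have hnotH : ∀ t ∈ A none, lift none t ∉ Hset A Z := by
    intro t ht h
    rcases mem_H.1 h with h | ⟨j, v, _, h⟩
    · exact hnotZ t ht h
    · exact lift_some_ne_none j v t h
  have hVc : ∀ u ∈ cay A univ ∪ Z, u ∈ Hset A Z ∨ ∃ t ∈ A none, lift none t = u := by
    intro u hu
    rcases mem_union.1 hu with h | h
    · rcases mem_cay.1 h with h | h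
      · exact Or.inr h
      · exact Or.inl (mem_H.2 (Or.inr h))
    · exact Or.inl (mem_H.2 (Or.inl h))
  have hupH : ∀ u ∈ Hset A Z, up L (Hset A Z) u = u := fun u hu => by
    unfold up; rw [if_pos hu]
  have hupN : ∀ u, u ∉ Hset A Z → up L (Hset A Z) u = (L : ℤ) • u := fun u hu => by
    unfold up; rw [if_neg hu]
  have hL0' : (L : ℤ) ≠ 0 := by exact_mod_cast hL0
  have hcross : ∀ u ∈ Hset A Z, ∀ t ∈ A none, u ≠ (L : ℤ) • lift none t := by
    intro u hu t ht h
    rcases mem_H.1 hu with hu | ⟨j, v, _, rfl⟩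
    · exact disjoint_left.1 hdis (mem_scay.2 (Or.inl ⟨t, ht, h.symm⟩)) hu
    · have := congrFun h (Fin.natAdd N j)
      rw [lift_right, Pi.smul_apply, lift_right] at this
      simp [ind] at this
  have hinj : ∀ u ∈ cay A univ ∪ Z, ∀ v ∈ cay A univ ∪ Z,
      up L (Hset A Z) u = up L (Hset A Z) v → u = v := by
    intro u hu v hv h
    rcases hVc u hu with hu' | ⟨t, ht, rfl⟩ <;> rcases hVc v hv with hv' | ⟨s, hs, rfl⟩
    · rwa [hupH u hu', hupH v hv'] at h
    · rw [hupH u hu', hupN _ (hnotH s hs)] at h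
      exact (hcross u hu' s hs h).elim
    · rw [hupH v hv', hupN _ (hnotH t ht)] at h
      exact (hcross v hv' t ht h.symm).elim
    · rw [hupN _ (hnotH t ht), hupN _ (hnotH s hs)] at h
      exact smul_right_injective _ hL0' h
  have hmem : ∀ u ∈ cay A univ ∪ Z, up L (Hset A Z) u ∈ Φ'.vert := by
    intro u hu
    rw [hvert, mem_union]
    rcases hVc u hu with hu' | ⟨t, ht, rfl⟩
    · rw [hupH u hu']
      rcases mem_H.1 hu' with h | h
      · exact Or.inr h
      · exact Or.inl (mem_scay.2 (Or.inr h))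
    · rw [hupN _ (hnotH t ht)]
      exact Or.inl (mem_scay.2 (Or.inl ⟨t, ht, rfl⟩))
  have hsurj : ∀ u' ∈ Φ'.vert, ∃ u ∈ cay A univ ∪ Z, up L (Hset A Z) u = u' := by
    intro u' hu'
    rw [hvert, mem_union] at hu'
    rcases hu' with hu' | hu'
    · rcases mem_scay.1 hu' with ⟨t, ht, rfl⟩ | h
      · exact ⟨lift none t, mem_union_left _ (mem_cay.2 (Or.inl ⟨t, ht, rfl⟩)),
          hupN _ (hnotH t ht)⟩
      · exact ⟨u', mem_union_left _ (mem_cay.2 (Or.inr h)), hupH _ (mem_H.2 (Or.inr h))⟩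
    · exact ⟨u', mem_union_right _ hu', hupH _ (mem_H.2 (Or.inl hu'))⟩
  have hVnn : ∀ u ∈ cay A univ ∪ Z, ∀ i, 0 ≤ u i := by
    intro u hu i
    rcases mem_union.1 hu with hu | hu
    · rcases mem_cay.1 hu with ⟨t, ht, rfl⟩ | ⟨j, t, ht, rfl⟩
      · exact lift_nonneg (hg.nonneg _ t ht) i
      · exact lift_nonneg (hg.nonneg _ t ht) i
    · obtain ⟨i', rfl⟩ := hZs u hu
      by_cases h : i = i'
      · subst h; simp
      · rw [Pi.single_eq_of_ne h]
  let l : (Fin (N + k) → ℤ) → ℝ := fun u => if u ∈ Hset A Z then 1 else (L : ℝ)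
  have hl : ∀ u, 0 < l u := by
    intro u
    show 0 < (if u ∈ Hset A Z then (1 : ℝ) else (L : ℝ))
    split_ifs
    · exact one_pos
    · positivity
  have hf : ∀ u, toR (up L (Hset A Z) u) = l u • toR u := by
    intro u
    show toR (up L (Hset A Z) u) = (if u ∈ Hset A Z then (1 : ℝ) else (L : ℝ)) • toR u
    by_cases h : u ∈ Hset A Z
    · rw [hupH u h, if_pos h, one_smul]
    · rw [hupN u h, if_neg h]
      funext i
      simp
  refine ⟨L, b', Z, Φ', scaleFan Φ' (cay A univ ∪ Z) (up L (Hset A Z)) l hVnn hl hf hinj hsurj,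
    { good := hg
      two_le := hL2
      lt := hlt
      pos := hb'
      ext := hext
      tri := hT
      bfan := hBF
      notZ := hnotZ
      coh := scaleFan_coherent Φ' _ _ l hVnn hl hf hinj hsurj hmem hco
      vert := rfl
      mx := ?_ }⟩
  ext F
  simp only [scaleFan, mem_filter]

end conf

end Mono.CI.R1
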