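import Pool.Agent.Helper90.Mono.FanB

/-! # The triangulated Newton boundary compatible with weights, with a condition on `Z`

This is the proof of `Pool/Agent/Helper90/Mono/FanB.lean` with one more conclusion. -/

set_option autoImplicit false

namespace Mono.CI.R1

open Finset Mono.Helper10 Mono.Helper90

variable {n : ℕ}

theorem mainZ (A : Finset (Fin n → ℤ)) (b : Fin n → ℝ) (hne : A.Nonempty)
    (h0 : ∀ v ∈ A, ∀ i, 0 ≤ v i) (hz : (0 : Fin n → ℤ) ∉ A) (hb : ∀ i, 0 < b i)
    (hbi : LinearIndependent ℚ b) :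
    ∃ (Φ : Fan n) (Z : Finset (Fin n → ℤ)), Tri A Z Φ ∧ Φ.Coherent ∧ BFan A Z b Φ ∧
      ∀ i : Fin n, (Pi.single i 1 : Fin n → ℤ) ∈ Z → ∀ d : ℤ, 0 < d →
        (Pi.single i d : Fin n → ℤ) ∉ A := by
  classical
  set Z := ZZ A with hZ
  have hdis : Disjoint A Z := disj_ZZ A
  have hgen : GenOrthant (A ∪ Z) := genOrthant h0 hz
  have hbs : ∀ i, b ⬝ᵥ toR (Pi.single i 1 : Fin n → ℤ) = b i := by
    intro i
    rw [toR_single]
    simp
  obtain ⟨g, hg1, hg2⟩ := genericHeights n (A ∪ Z) (fun u => if u ∈ Z then 0 else 1)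
    (fun u => if u ∈ Z then b ⬝ᵥ toR u else 0)
  obtain ⟨Φ, hv, hco, hmx⟩ := fanOfGeneric n (A ∪ Z) g hgen hg1
  have hFR : ∀ F ∈ Φ.mx, F ⊆ A ∪ Z := fun F hF => hv ▸ Φ.mx_sub F hF
  have hpsi : ∀ (F : Finset (Fin n → ℤ)) (x : Fin n → ℝ),
      ∑ u ∈ F, crd F x u * (if u ∈ Z then (0 : ℝ) else 1) = psi Z F x := by
    intro F x
    unfold psi
    rw [Finset.sdiff_eq_filter, Finset.sum_filter]
    refine Finset.sum_congr rfl fun u _ => ?_
    by_cases h : u ∈ Z <;> simp [h]
  have hA1 : ∀ F ∈ Φ.mx, ∀ v ∈ A, 1 ≤ psi Z F (toR v) := by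
    intro F hF v hvA
    have h3 := (hg2 F (hFR F hF) (Φ.mx_card F hF) (Φ.mx_indep F hF) v
      (Finset.mem_union_left _ hvA) (hmx F hF v (Finset.mem_union_left _ hvA))).1
    rw [hpsi, if_neg (Finset.disjoint_left.1 hdis hvA)] at h3
    exact h3
  have hZ0 : ∀ F ∈ Φ.mx, ∀ v ∈ Z, 0 ≤ psi Z F (toR v) := by
    intro F hF v hvA
    have h3 := (hg2 F (hFR F hF) (Φ.mx_card F hF) (Φ.mx_indep F hF) v
      (Finset.mem_union_right _ hvA) (hmx F hF v (Finset.mem_union_right _ hvA))).1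
    rw [hpsi, if_pos hvA] at h3
    exact h3
  have hsingle : ∀ F ∈ Φ.mx, ∀ i : Fin n, 0 < psi Z F (Pi.single i 1) ∨
      (0 ≤ psi Z F (Pi.single i 1) ∧ (Pi.single i 1 : Fin n → ℤ) ∈ Z) := by
    intro F hF i
    by_cases h : ∀ d : ℤ, 0 < d → (Pi.single i d : Fin n → ℤ) ∉ A
    · right
      have h1 : (Pi.single i 1 : Fin n → ℤ) ∈ Z := mem_ZZ.2 ⟨i, h, rfl⟩
      have h2 := hZ0 F hF _ h1
      rw [toR_single, Int.cast_one, one_smul] at h2
      exact ⟨h2, h1⟩
    · left
      push Not at h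
      obtain ⟨d, hd, hdA⟩ := h
      have h2 := hA1 F hF _ hdA
      rw [toR_single, psi_smul Z (Φ.mx_indep F hF) (Φ.mx_card F hF)] at h2
      have hd' : (0 : ℝ) < d := by exact_mod_cast hd
      by_contra hneg
      push Not at hneg
      have : (d : ℝ) * psi Z F (Pi.single i 1) ≤ 0 :=
        mul_nonpos_of_nonneg_of_nonpos hd'.le hneg
      linarith
  have hNewton : Φ.Newton Z := by
    refine ⟨?_, ?_, ?_⟩
    · rw [hv]
      exact Finset.subset_union_right
    · intro z hz
      obtain ⟨i, _, rfl⟩ := mem_ZZ.1 hz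
      exact ⟨i, rfl⟩
    · intro F hF
      refine ⟨?_, ?_⟩
      · intro u hu
        rw [hv, Finset.mem_sdiff, Finset.mem_union] at hu
        exact hA1 F hF u (hu.1.resolve_right hu.2)
      · intro i
        rcases hsingle F hF i with h | h
        · exact h.le
        · exact h.1
  -- the forms
  have forms : ∀ F ∈ Φ.mx, ∃ (M : ℤ) (k1 : Fin n → ℤ) (a : Fin n → Fin n → ℤ), 0 < M ∧
      (∀ u ∈ F, k1 ⬝ᵥ u = M * if u ∈ Z then 0 else 1) ∧
      (∀ j, ∀ u ∈ F, a j ⬝ᵥ u = M * if u = Pi.single j 1 then 1 else 0) ∧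
      (∀ x : Fin n → ℝ, toR k1 ⬝ᵥ x = M * psi Z F x) ∧
      (∀ x : Fin n → ℝ, (∑ j ∈ univ.filter (fun j => (Pi.single j 1 : Fin n → ℤ) ∈ F ∩ Z),
        b j * (toR (a j) ⬝ᵥ x)) =
        M * ∑ u ∈ F, crd F x u * (if u ∈ Z then b ⬝ᵥ toR u else 0)) := by
    intro F hF
    have hFc := Φ.mx_card F hF
    have hFi := Φ.mx_indep F hF
    obtain ⟨M, hM, hfun⟩ := exists_int_functional hFi hFc
    obtain ⟨k1, hk1⟩ := hfun (fun u => if u ∈ Z then 0 else 1)
    choose a ha using fun j : Fin n => hfun (fun u => if u = Pi.single j 1 then 1 else 0)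
    refine ⟨M, k1, a, hM, hk1, ha, ?_, ?_⟩
    · intro x
      rw [dot_eq_sum_crd hFi hFc, ← hpsi, mul_sum]
      refine sum_congr rfl fun u hu => ?_
      rw [dotR, hk1 u hu]
      push_cast
      ring
    · intro x
      have e1 : ∀ j, toR (a j) ⬝ᵥ x = ∑ u ∈ F, crd F x u * (M * if u = Pi.single j 1 then 1 else 0) := by
        intro j
        rw [dot_eq_sum_crd hFi hFc]
        refine sum_congr rfl fun u hu => ?_
        rw [dotR, ha j u hu]
        push_cast
        ring
      simp_rw [e1, mul_sum]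
      rw [sum_comm]
      refine sum_congr rfl fun u hu => ?_
      by_cases huZ : u ∈ Z
      · obtain ⟨i, _, rfl⟩ := mem_ZZ.1 huZ
        rw [if_pos huZ, hbs]
        rw [sum_eq_single i]
        · simp only [if_true]
          ring
        · intro j _ hj
          have : (Pi.single i 1 : Fin n → ℤ) ≠ Pi.single j 1 := by
            intro h
            have := congrFun h i
            rw [Pi.single_eq_same, Pi.single_eq_of_ne (Ne.symm hj)] at this
            exact one_ne_zero this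
          rw [if_neg this]
          ring
        · intro h
          exact (h (mem_filter.2 ⟨mem_univ i, mem_inter.2 ⟨hu, huZ⟩⟩)).elim
      · rw [if_neg huZ, mul_zero, mul_zero]
        refine sum_eq_zero fun j hj => ?_
        have : u ≠ Pi.single j 1 := by
          rintro rfl
          exact huZ (mem_inter.1 (mem_filter.1 hj).2).2
        rw [if_neg this]
        ring
  have hdoti : ∀ (k : Fin n → ℝ) (i : Fin n), k ⬝ᵥ (Pi.single i 1 : Fin n → ℝ) = k i := by
    intro k i
    simp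
  have hBF : BFan A Z b Φ := by
    intro F hF
    have hFc := Φ.mx_card F hF
    have hFi := Φ.mx_indep F hF
    obtain ⟨M, k1, a, hM, hk1, ha, e1, e2⟩ := forms F hF
    have hMR : (0 : ℝ) < M := by exact_mod_cast hM
    set S := univ.filter (fun j => (Pi.single j 1 : Fin n → ℤ) ∈ F ∩ Z) with hS
    have ek : ∀ x : Fin n → ℝ, ((M : ℝ)⁻¹ • toR k1) ⬝ᵥ x = psi Z F x := by
      intro x
      rw [smul_dotProduct, e1, smul_eq_mul, inv_mul_cancel_left₀ hMR.ne']
    have el : ∀ x : Fin n → ℝ, ((M : ℝ)⁻¹ • ∑ j ∈ S, b j • toR (a j)) ⬝ᵥ x =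
        ∑ u ∈ F, crd F x u * (if u ∈ Z then b ⬝ᵥ toR u else 0) := by
      intro x
      rw [smul_dotProduct, sum_dotProduct]
      simp only [smul_dotProduct, smul_eq_mul]
      rw [e2, inv_mul_cancel_left₀ hMR.ne']
    have elF : ∀ v ∈ F, ∑ u ∈ F, crd F (toR v) u * (if u ∈ Z then b ⬝ᵥ toR u else 0) =
        if v ∈ Z then b ⬝ᵥ toR v else 0 := by
      intro v hv
      simp [crd_toR hFi hv, hv]
    refine ⟨(M : ℝ)⁻¹ • toR k1, (M : ℝ)⁻¹ • ∑ j ∈ S, b j • toR (a j), ?_, ?_, ?_, ?_⟩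
    · intro u hu
      obtain ⟨huF, huZ⟩ := mem_sdiff.1 hu
      rw [ek, el, elF u huF, if_neg huZ, psi_toR Z hFi huF, if_neg huZ]
      exact ⟨rfl, rfl⟩
    · intro i hi
      obtain ⟨hiF, hiZ⟩ := mem_inter.1 hi
      have h1 := ek (Pi.single i 1)
      have h2 := el (Pi.single i 1)
      rw [hdoti] at h1 h2
      have h3 : (Pi.single i 1 : Fin n → ℝ) = toR (Pi.single i 1 : Fin n → ℤ) := by
        rw [toR_single]
        simp
      rw [h3] at h1 h2
      rw [h1, h2, elF _ hiF, if_pos hiZ, hbs, psi_toR Z hFi hiF, if_pos hiZ]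
      exact ⟨rfl, rfl⟩
    · intro i hi
      have h1 := ek (Pi.single i 1)
      have h2 := el (Pi.single i 1)
      rw [hdoti] at h1 h2
      rcases hsingle F hF i with h | ⟨h, hiZ⟩
      · left
        rw [h1]
        exact h
      · rcases h.lt_or_eq with h' | h'
        · left
          rw [h1]
          exact h'
        · right
          refine ⟨by rw [h1, ← h'], ?_⟩
          have hiF : (Pi.single i 1 : Fin n → ℤ) ∉ F := fun h => hi (mem_inter.2 ⟨h, hiZ⟩)
          have h4 := (hg2 F (hFR F hF) hFc hFi _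
            (Finset.mem_union_right _ hiZ) (hmx F hF _ (Finset.mem_union_right _ hiZ))).2
          have h8 : toR (Pi.single i 1 : Fin n → ℤ) = (Pi.single i 1 : Fin n → ℝ) := by
            rw [toR_single]
            simp
          rw [hpsi, h8, if_pos hiZ] at h4
          have h5 := h4 h'
          rw [← h8, if_pos hiZ, hbs, h8] at h5
          rw [h2]
          refine lt_of_le_of_ne h5 fun heq => ?_
          -- a rational relation
          have h6 := e2 (Pi.single i 1)
          rw [← heq] at h6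
          simp only [hdoti, toR_apply] at h6
          have hiS : i ∉ S := fun h => hiF (mem_inter.1 (mem_filter.1 h).2).1
          have h7 := indep_int hbi (fun j => if j ∈ S then a j i else if j = i then -M else 0) (by
            have e3 : ∀ j, b j * (((if j ∈ S then a j i else if j = i then -M else 0 : ℤ)) : ℝ) =
                (if j ∈ S then b j * (a j i : ℝ) else 0) + (if j = i then -(M * b i : ℝ) else 0) := by
              intro j
              by_cases hj : j ∈ S
              · have : j ≠ i := fun h => hiS (h ▸ hj)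
                simp [hj, this]
              · by_cases hji : j = i
                · subst hji
                  simp [hj]
                  ring
                · simp [hj, hji]
            rw [sum_congr rfl fun j _ => e3 j, sum_add_distrib, sum_ite_mem, univ_inter, h6]
            simp) i
          simp only [if_neg hiS, if_true] at h7
          omega
    · intro v hvA
      rw [ek, el]
      rcases (hA1 F hF v hvA).lt_or_eq with h | h
      · exact Or.inl h
      · right
        refine ⟨h.symm, ?_⟩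
        have h4 := (hg2 F (hFR F hF) hFc hFi v
          (Finset.mem_union_left _ hvA) (hmx F hF v (Finset.mem_union_left _ hvA))).2
        rw [hpsi, if_neg (Finset.disjoint_left.1 hdis hvA)] at h4
        have h5 := h4 h
        rwa [if_neg (Finset.disjoint_left.1 hdis hvA)] at h5
  have hsing : ∀ i : Fin n, (Pi.single i 1 : Fin n → ℤ) ∈ Z → ∀ d : ℤ, 0 < d →
      (Pi.single i d : Fin n → ℤ) ∉ A := by
    intro i hi
    obtain ⟨i', hi', he⟩ := mem_ZZ.1 hi
    have : i' = i := by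
      by_contra hne
      have h9 := congrFun he i
      rw [Pi.single_eq_same, Pi.single_eq_of_ne (Ne.symm hne)] at h9
      exact zero_ne_one h9
    subst this
    exact hi'
  refine ⟨Φ, Z, ⟨hne, h0, hz, hdis, hv, hNewton, ?_⟩, hco, hBF, hsing⟩
  intro F hF
  have hFc := Φ.mx_card F hF
  have hFi := Φ.mx_indep F hF
  obtain ⟨M, k1, a, hM, hk1, ha, e1, e2⟩ := forms F hF
  have hMR : (0 : ℝ) < M := by exact_mod_cast hM
  set S := univ.filter (fun j => (Pi.single j 1 : Fin n → ℤ) ∈ F ∩ Z) with hS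
  -- the key facts on integers
  have f1 : ∀ v ∈ A, M ≤ k1 ⬝ᵥ v := by
    intro v hvA
    have h1 : ((k1 ⬝ᵥ v : ℤ) : ℝ) = M * psi Z F (toR v) := by rw [← dotR, e1]
    have h2 : (M : ℝ) ≤ ((k1 ⬝ᵥ v : ℤ) : ℝ) := by
      rw [h1]
      exact le_mul_of_one_le_right hMR.le (hA1 F hF v hvA)
    exact_mod_cast h2
  have g2 : ∀ v ∈ A, ∀ᶠ T : ℕ in Filter.atTop,
      k1 ⬝ᵥ v = M → 0 ≤ ∑ j ∈ S, ⌊(T : ℝ) * b j⌋ * (a j ⬝ᵥ v) := by
    intro v hvA
    by_cases hMv : k1 ⬝ᵥ v = M
    swap
    · exact Filter.Eventually.of_forall fun _ h => absurd h hMv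
    have h1 : ((k1 ⬝ᵥ v : ℤ) : ℝ) = M * psi Z F (toR v) := by rw [← dotR, e1]
    rw [hMv] at h1
    have h2 : psi Z F (toR v) = 1 := by
      have h3 : (M : ℝ) * (psi Z F (toR v) - 1) = 0 := by linarith
      rcases mul_eq_zero.1 h3 with h | h
      · exact absurd h hMR.ne'
      · linarith
    have h4 := (hg2 F (hFR F hF) hFc hFi v
      (Finset.mem_union_left _ hvA) (hmx F hF v (Finset.mem_union_left _ hvA))).2
    rw [hpsi, if_neg (Finset.disjoint_left.1 hdis hvA), h2] at h4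
    have h5 := h4 rfl
    rw [if_neg (Finset.disjoint_left.1 hdis hvA)] at h5
    have h6 : 0 ≤ ∑ j ∈ S, b j * ((a j ⬝ᵥ v : ℤ) : ℝ) := by
      have h7 := e2 (toR v)
      simp only [dotR] at h7
      rw [h7]
      exact mul_nonneg hMR.le h5
    rcases h6.lt_or_eq with h | h
    · filter_upwards [floor_pos S b (fun j => a j ⬝ᵥ v) h] with T hT _
      omega
    · -- all vanish
      have h7 : ∀ j ∈ S, a j ⬝ᵥ v = 0 := by
        intro j hj
        have h8 := indep_int hbi (fun j => if j ∈ S then a j ⬝ᵥ v else 0) (by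
          rw [h]
          have : ∀ j, b j * (((if j ∈ S then a j ⬝ᵥ v else 0 : ℤ)) : ℝ) =
              if j ∈ S then b j * ((a j ⬝ᵥ v : ℤ) : ℝ) else 0 := by
            intro j
            by_cases hj : j ∈ S <;> simp [hj]
          rw [sum_congr rfl fun j _ => this j, sum_ite_mem, univ_inter]) j
        simpa [hj] using h8
      refine Filter.Eventually.of_forall fun T _ => ?_
      rw [sum_eq_zero fun j hj => by rw [h7 j hj, mul_zero]]
  have g3 : ∀ i, ∀ᶠ T : ℕ in Filter.atTop,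
      1 ≤ k1 i ∨ (k1 i = 0 ∧ 1 ≤ ∑ j ∈ S, ⌊(T : ℝ) * b j⌋ * a j i) := by
    intro i
    have h1 := e1 (Pi.single i 1)
    rw [hdoti, toR_apply] at h1
    have pos : ∀ _h : 0 < psi Z F (Pi.single i 1), 1 ≤ k1 i := by
      intro h
      have h2 : (0 : ℝ) < k1 i := by
        rw [h1]
        exact mul_pos hMR h
      have h3 : 0 < k1 i := by exact_mod_cast h2
      omega
    rcases hsingle F hF i with h | ⟨h, hZi⟩
    · exact Filter.Eventually.of_forall fun _ => Or.inl (pos h)
    · rcases h.lt_or_eq with h' | h'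
      · exact Filter.Eventually.of_forall fun _ => Or.inl (pos h')
      · rw [← h', mul_zero] at h1
        have hk0 : k1 i = 0 := by exact_mod_cast h1
        have h4 := (hg2 F (hFR F hF) hFc hFi _
          (Finset.mem_union_right _ hZi) (hmx F hF _ (Finset.mem_union_right _ hZi))).2
        have h8 : toR (Pi.single i 1 : Fin n → ℤ) = (Pi.single i 1 : Fin n → ℝ) := by
          rw [toR_single]
          simp
        rw [hpsi, h8, if_pos hZi] at h4
        have h5 := h4 h'
        rw [← h8, if_pos hZi, hbs, h8] at h5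
        have h6 : 0 < ∑ j ∈ S, b j * (a j i : ℝ) := by
          have h7 := e2 (Pi.single i 1)
          simp only [hdoti, toR_apply] at h7
          rw [h7]
          exact mul_pos hMR ((hb i).trans_le h5)
        filter_upwards [floor_pos S b (fun j => a j i) h6] with T hT
        exact Or.inr ⟨hk0, hT⟩
  obtain ⟨T, hT2, hT3⟩ := (((Filter.eventually_all_finset A).2 g2).and
    (Filter.eventually_all.2 g3)).exists
  set k2 : Fin n → ℤ := ∑ j ∈ S, ⌊(T : ℝ) * b j⌋ • a j with hk2d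
  have k2dot : ∀ v : Fin n → ℤ, k2 ⬝ᵥ v = ∑ j ∈ S, ⌊(T : ℝ) * b j⌋ * (a j ⬝ᵥ v) := by
    intro v
    rw [hk2d, sum_dotProduct]
    simp only [smul_dotProduct, smul_eq_mul]
  have k2i : ∀ i, k2 i = ∑ j ∈ S, ⌊(T : ℝ) * b j⌋ * a j i := by
    intro i
    rw [hk2d, Finset.sum_apply]
    simp only [Pi.smul_apply, smul_eq_mul]
  have f2 : ∀ v ∈ A, k1 ⬝ᵥ v = M → 0 ≤ k2 ⬝ᵥ v := by
    intro v hvA h
    rw [k2dot]
    exact hT2 v hvA h
  have f3 : ∀ i, 1 ≤ k1 i ∨ (k1 i = 0 ∧ 1 ≤ k2 i) := by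
    intro i
    rw [k2i]
    exact hT3 i
  have hk2 : ∀ u ∈ F, u ∉ Z → k2 ⬝ᵥ u = 0 := by
    intro u huF huZ
    rw [k2dot]
    refine sum_eq_zero fun j hj => ?_
    have : u ≠ Pi.single j 1 := by
      rintro rfl
      exact huZ (mem_inter.1 (mem_filter.1 hj).2).2
    rw [ha j u huF, if_neg this]
    ring
  -- the integer N
  set N : ℤ := 1 + ∑ i, |k2 i| + ∑ v ∈ A, |k2 ⬝ᵥ v| with hN
  have hs1 : ∀ i, |k2 i| ≤ ∑ i, |k2 i| := fun i =>
    Finset.single_le_sum (f := fun i => |k2 i|) (fun _ _ => abs_nonneg _) (Finset.mem_univ i)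
  have hs2 : ∀ v ∈ A, |k2 ⬝ᵥ v| ≤ ∑ v ∈ A, |k2 ⬝ᵥ v| := fun v hv =>
    Finset.single_le_sum (f := fun v => |k2 ⬝ᵥ v|) (fun _ _ => abs_nonneg _) hv
  have hs3 : (0 : ℤ) ≤ ∑ i, |k2 i| := Finset.sum_nonneg fun _ _ => abs_nonneg _
  have hs4 : (0 : ℤ) ≤ ∑ v ∈ A, |k2 ⬝ᵥ v| := Finset.sum_nonneg fun _ _ => abs_nonneg _
  have hdota : ∀ v : Fin n → ℤ, (N • k1 + k2) ⬝ᵥ v = N * (k1 ⬝ᵥ v) + k2 ⬝ᵥ v := by
    intro v
    rw [add_dotProduct, smul_dotProduct, smul_eq_mul]
  have hge : ∀ v ∈ A, N * M ≤ (N • k1 + k2) ⬝ᵥ v := by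
    intro v hvA
    rw [hdota]
    rcases (f1 v hvA).lt_or_eq with h | h
    · have h1 := hs2 v hvA
      have h2 := neg_abs_le (k2 ⬝ᵥ v)
      have h3 : N * (M + 1) ≤ N * (k1 ⬝ᵥ v) := by
        apply mul_le_mul_of_nonneg_left (by omega) (by omega)
      nlinarith
    · have h1 := f2 v hvA h.symm
      rw [← h]
      omega
  refine ⟨N • k1 + k2, ?_, ?_⟩
  · intro i
    have h1 := hs1 i
    have h2 := neg_abs_le (k2 i)
    simp only [Pi.add_apply, Pi.smul_apply, smul_eq_mul]
    rcases f3 i with h | ⟨h, h'⟩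
    · have h3 : N * 1 ≤ N * k1 i := mul_le_mul_of_nonneg_left h (by omega)
      omega
    · rw [h]
      omega
  · intro u hu
    obtain ⟨huF, huZ⟩ := Finset.mem_sdiff.1 hu
    have huA : u ∈ A := (Finset.mem_union.1 (hFR F hF huF)).resolve_right huZ
    have hval : (N • k1 + k2) ⬝ᵥ u = N * M := by
      rw [hdota, hk1 u huF, hk2 u huF huZ, if_neg huZ]
      ring
    rw [hval]
    unfold NA
    apply le_antisymm
    · refine le_csInf ⟨_, u, huA, rfl⟩ ?_
      rintro z ⟨v, hvA, rfl⟩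
      exact hge v hvA
    · refine csInf_le ⟨N * M, ?_⟩ ⟨u, huA, hval.symm⟩
      rintro z ⟨v, hvA, rfl⟩
      exact hge v hvA

end Mono.CI.R1
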